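import Pool.Agent.Helper60.LZ.St

/-!
# Project LZ (MP_5e9b96_nt), module FYB: one `y`, both numbers
-/

set_option autoImplicit false

noncomputable section

namespace Pool.Agent.Helper22.LZ

open Finset
open Pool.Agent.Helper15.AB (StMT StML)
open Pool.Agent.Helper30.PB (StPIP)
open Pool.Agent.Helper30.LK (StSVU)
open Pool.Agent.Helper30.LY (Sy)
open Pool.Agent.Helper93.KS (StPSI StTRF StRNL)
open Pool.Agent.Helper60.LZ

/-- the product of the two numbers, `n = P - 4 + P s` -/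
private def G (P y s : ℤ) : ℤ :=
  ((y + 1) * (P - 4 + P * s) - y) * ((P - 4 + P * s) ^ 2 + (y ^ 2 - 2 * y) * (P - 4 + P * s) + y ^ 2)

private theorem affine_bij (l : ℕ) [Fact l.Prime] (a b : ZMod l) (ha : a ≠ 0) :
    Function.Bijective (fun s : ZMod l => a * s + b) := by
  rw [← Finite.injective_iff_bijective]
  intro s t h
  have h1 : a * s = a * t := add_right_cancel h
  exact mul_left_cancel₀ ha h1

/-- the number of the classes -/
private theorem roots_card (l : ℕ) [Fact l.Prime] (h2 : l ≠ 2) (P y : ℤ) (hP : (P : ZMod l) ≠ 0)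
    (hy : (y : ZMod l) ≠ 0) (hy1 : (y : ZMod l) + 1 ≠ 0) (hy2 : 2 * (y : ZMod l) + 1 ≠ 0) :
    (((univ : Finset (ZMod l)).filter (fun s : ZMod l => (((y : ZMod l) + 1) * (P - 4 + P * s) - y) *
      ((P - 4 + P * s) ^ 2 + ((y : ZMod l) ^ 2 - 2 * y) * (P - 4 + P * s) + (y : ZMod l) ^ 2) = 0)).card : ℤ) =
      2 + jacobiSym ((y - 2) ^ 2 - 4) l := by
  classical
  have h20 : (2 : ZMod l) ≠ 0 := by
    intro h
    have h' : ((2 : ℕ) : ZMod l) = 0 := by exact_mod_cast h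
    rw [ZMod.natCast_eq_zero_iff] at h'
    exact h2 ((Nat.prime_dvd_prime_iff_eq Fact.out Nat.prime_two).1 h')
  have h40 : (4 : ZMod l) ≠ 0 := by
    have : (4 : ZMod l) = 2 * 2 := by norm_num
    rw [this]
    exact mul_ne_zero h20 h20
  have e : (univ : Finset (ZMod l)).filter (fun s : ZMod l => (((y : ZMod l) + 1) * (P - 4 + P * s) - y) *
      ((P - 4 + P * s) ^ 2 + ((y : ZMod l) ^ 2 - 2 * y) * (P - 4 + P * s) + (y : ZMod l) ^ 2) = 0) =
      (univ : Finset (ZMod l)).filter (fun s : ZMod l => ((y : ZMod l) + 1) * (P - 4 + P * s) - y = 0) ∪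
      (univ : Finset (ZMod l)).filter (fun s : ZMod l =>
        ((P - 4 + P * s) ^ 2 + ((y : ZMod l) ^ 2 - 2 * y) * (P - 4 + P * s) + (y : ZMod l) ^ 2) = 0) := by
    ext s
    simp only [mem_filter, mem_univ, true_and, mem_union, mul_eq_zero]
  have hd : Disjoint
      ((univ : Finset (ZMod l)).filter (fun s : ZMod l => ((y : ZMod l) + 1) * (P - 4 + P * s) - y = 0))
      ((univ : Finset (ZMod l)).filter (fun s : ZMod l =>
        ((P - 4 + P * s) ^ 2 + ((y : ZMod l) ^ 2 - 2 * y) * (P - 4 + P * s) + (y : ZMod l) ^ 2) = 0)) := by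
    rw [Finset.disjoint_left]
    intro s h1 h3
    have hA := (mem_filter.1 h1).2
    have hB := (mem_filter.1 h3).2
    have h4 : (y : ZMod l) ^ 3 * (2 * (y : ZMod l) + 1) = 0 := by
      linear_combination ((y : ZMod l) + 1) ^ 2 * hB - (((y : ZMod l) + 1) * (P - 4 + P * s) + y +
        ((y : ZMod l) ^ 2 - 2 * y) * ((y : ZMod l) + 1)) * hA
    rcases mul_eq_zero.1 h4 with h5 | h5
    · exact hy (pow_eq_zero_iff (by norm_num) |>.1 h5)
    · exact hy2 h5
  have c1 : ((univ : Finset (ZMod l)).filter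
      (fun s : ZMod l => ((y : ZMod l) + 1) * (P - 4 + P * s) - y = 0)).card = 1 := by
    have h3 := Finset.card_bijective (s := (univ : Finset (ZMod l)).filter
      (fun s : ZMod l => ((y : ZMod l) + 1) * (P - 4 + P * s) - y = 0)) (t := {0})
      (fun s : ZMod l => (((y : ZMod l) + 1) * P) * s + (((y : ZMod l) + 1) * (P - 4) - y))
      (affine_bij l _ _ (mul_ne_zero hy1 hP)) (fun s => by
        simp only [mem_filter, mem_univ, true_and, mem_singleton]
        constructor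
        · intro h
          linear_combination h
        · intro h
          linear_combination h)
    rw [h3, card_singleton]
  have hu : (y : ZMod l) * (y : ZMod l)⁻¹ = 1 := mul_inv_cancel₀ hy
  have c2 : (((univ : Finset (ZMod l)).filter (fun s : ZMod l =>
        ((P - 4 + P * s) ^ 2 + ((y : ZMod l) ^ 2 - 2 * y) * (P - 4 + P * s) + (y : ZMod l) ^ 2) = 0)).card : ℤ) =
      jacobiSym ((y - 2) ^ 2 - 4) l + 1 := by
    rw [← jacobiSym.legendreSym.to_jacobiSym, ← legendreSym.card_sqrts l h2]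
    congr 1
    refine Finset.card_bijective
      (fun s : ZMod l => (2 * P * (y : ZMod l)⁻¹) * s + (2 * (P - 4) + (y : ZMod l) ^ 2 - 2 * y) * (y : ZMod l)⁻¹)
      (affine_bij l _ _ (mul_ne_zero (mul_ne_zero h20 hP) (inv_ne_zero hy))) (fun s => ?_)
    simp only [mem_filter, mem_univ, true_and, Set.mem_toFinset, Set.mem_ofPred_eq]
    push_cast
    constructor
    · intro hB
      linear_combination 4 * (y : ZMod l)⁻¹ ^ 2 * hB +
        ((y : ZMod l) * (y : ZMod l)⁻¹ + 1) * (((y : ZMod l) - 2) ^ 2 - 4) * hu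
    · intro h
      have h5 : 4 * (((P : ZMod l) - 4 + P * s) ^ 2 + ((y : ZMod l) ^ 2 - 2 * y) * (P - 4 + P * s) +
          (y : ZMod l) ^ 2) = 0 := by
        linear_combination (y : ZMod l) ^ 2 * h -
          (2 * ((P : ZMod l) - 4 + P * s) + (y : ZMod l) ^ 2 - 2 * y) ^ 2 *
            ((y : ZMod l) * (y : ZMod l)⁻¹ + 1) * hu
      rcases mul_eq_zero.1 h5 with h6 | h6
      · exact absurd h6 h40
      · exact h6
  rw [e, card_union_of_disjoint hd]
  push_cast
  rw [c1, c2]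
  push_cast
  ring

private theorem range_card (l : ℕ) [Fact l.Prime] (Q : ZMod l → Prop) [DecidablePred Q] :
    ((range l).filter (fun s : ℕ => Q (s : ZMod l))).card = ((univ : Finset (ZMod l)).filter Q).card := by
  refine Finset.card_nbij' (fun s : ℕ => (s : ZMod l)) ZMod.val ?_ ?_ ?_ ?_
  · intro s hs
    have h := (mem_filter.1 (by exact_mod_cast hs : s ∈ (range l).filter (fun s : ℕ => Q (s : ZMod l)))).2
    simp only [coe_filter, mem_univ, true_and, Set.mem_ofPred_eq]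
    exact h
  · intro s hs
    have h : Q s := by
      simpa using hs
    simp only [coe_filter, mem_range, Set.mem_ofPred_eq]
    exact ⟨ZMod.val_lt s, by rwa [ZMod.natCast_zmod_val]⟩
  · intro s hs
    have h : s < l := by
      have := (mem_filter.1 (by exact_mod_cast hs : s ∈ (range l).filter (fun s : ℕ => Q (s : ZMod l)))).1
      exact mem_range.1 this
    exact ZMod.val_cast_of_lt h
  · intro s _
    exact ZMod.natCast_zmod_val s

open Classical in
/-- the classes which are removed -/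
private def SS (P x w y l : ℕ) : Finset ℕ :=
  if l ∈ pw x w ∧ ¬ l ∣ y * (y + 1) * (2 * y + 1) then
    (range l).filter (fun s : ℕ => (l : ℤ) ∣ G P y s) else ∅

private theorem SS_card {P x w y l : ℕ} (hPl : ∀ l : ℕ, l.Prime → l ∣ P → 2 * l ≤ x) (hy : 5 ≤ y)
    (hl : l ∈ pw x w) (hg : ¬ l ∣ y * (y + 1) * (2 * y + 1)) :
    ((SS P x w y l).card : ℝ) = 2 + js (y - 2) l := by
  classical
  have hl' := hl
  unfold pw at hl'
  obtain ⟨h1, hp, hx⟩ := mem_filter.1 hl'
  rw [mem_Icc] at h1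
  have : Fact l.Prime := ⟨hp⟩
  have hP : ((P : ℤ) : ZMod l) ≠ 0 := by
    intro h
    have h' : ((P : ℕ) : ZMod l) = 0 := by exact_mod_cast h
    rw [ZMod.natCast_eq_zero_iff] at h'
    have := hPl l hp h'
    omega
  have hy0 : ((y : ℤ) : ZMod l) ≠ 0 := by
    intro h
    have h' : ((y : ℕ) : ZMod l) = 0 := by exact_mod_cast h
    rw [ZMod.natCast_eq_zero_iff] at h'
    exact hg (Dvd.dvd.mul_right (Dvd.dvd.mul_right h' _) _)
  have hy1 : ((y : ℤ) : ZMod l) + 1 ≠ 0 := by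
    intro h
    have h' : ((y + 1 : ℕ) : ZMod l) = 0 := by
      push_cast
      exact_mod_cast h
    rw [ZMod.natCast_eq_zero_iff] at h'
    exact hg (Dvd.dvd.mul_right (Dvd.dvd.mul_left h' _) _)
  have hy2 : 2 * ((y : ℤ) : ZMod l) + 1 ≠ 0 := by
    intro h
    have h' : ((2 * y + 1 : ℕ) : ZMod l) = 0 := by
      push_cast
      exact_mod_cast h
    rw [ZMod.natCast_eq_zero_iff] at h'
    exact hg (Dvd.dvd.mul_left h' _)
  have hc := roots_card l (by omega) (P : ℤ) (y : ℤ) hP hy0 hy1 hy2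
  have hr := range_card l (fun s : ZMod l => ((((y : ℤ) : ZMod l) + 1) * (((P : ℤ) : ZMod l) - 4 + ((P : ℤ) : ZMod l) * s) - ((y : ℤ) : ZMod l)) *
      ((((P : ℤ) : ZMod l) - 4 + ((P : ℤ) : ZMod l) * s) ^ 2 + (((y : ℤ) : ZMod l) ^ 2 - 2 * ((y : ℤ) : ZMod l)) *
        (((P : ℤ) : ZMod l) - 4 + ((P : ℤ) : ZMod l) * s) + ((y : ℤ) : ZMod l) ^ 2) = 0)
  have e : SS P x w y l = (range l).filter (fun s : ℕ => ((((y : ℤ) : ZMod l) + 1) * (((P : ℤ) : ZMod l) - 4 + ((P : ℤ) : ZMod l) * (s : ZMod l)) - ((y : ℤ) : ZMod l)) *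
      ((((P : ℤ) : ZMod l) - 4 + ((P : ℤ) : ZMod l) * (s : ZMod l)) ^ 2 + (((y : ℤ) : ZMod l) ^ 2 - 2 * ((y : ℤ) : ZMod l)) *
        (((P : ℤ) : ZMod l) - 4 + ((P : ℤ) : ZMod l) * (s : ZMod l)) + ((y : ℤ) : ZMod l) ^ 2) = 0) := by
    unfold SS
    rw [if_pos ⟨hl, hg⟩]
    ext s
    simp only [mem_filter]
    refine and_congr_right fun _ => ?_
    rw [← ZMod.intCast_zmod_eq_zero_iff_dvd]
    unfold G
    push_cast
    exact Iff.rfl
  have hJ : ((SS P x w y l).card : ℤ) = 2 + jacobiSym (((y : ℤ) - 2) ^ 2 - 4) l := by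
    rw [e, hr]
    exact hc
  have ht : ((y - 2 : ℕ) : ℤ) = (y : ℤ) - 2 := by omega
  unfold js
  rw [ht]
  exact_mod_cast hJ

private theorem js_bd (t l : ℕ) : js t l ≤ 1 := by
  unfold js
  rcases jacobiSym.trichotomy ((t : ℤ) ^ 2 - 4) l with h | h | h <;> rw [h] <;> norm_num

private theorem SS_ok {P x w y : ℕ} (hPl : ∀ l : ℕ, l.Prime → l ∣ P → 2 * l ≤ x) (hy : 5 ≤ y) (l : ℕ) :
    (∀ s ∈ SS P x w y l, s < l) ∧ (SS P x w y l).card ≤ 3 := by
  by_cases h : l ∈ pw x w ∧ ¬ l ∣ y * (y + 1) * (2 * y + 1)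
  · constructor
    · intro s hs
      unfold SS at hs
      rw [if_pos h] at hs
      exact mem_range.1 (mem_filter.1 hs).1
    · have h1 := SS_card (P := P) hPl hy h.1 h.2
      have h2 := js_bd (y - 2) l
      have h3 : ((SS P x w y l).card : ℝ) ≤ 3 := by linarith
      exact_mod_cast h3
  · have h1 : SS P x w y l = ∅ := by
      unfold SS
      rw [if_neg h]
    rw [h1]
    exact ⟨fun s hs => by simp at hs, by simp⟩

/-- few exceptional primes -/
private theorem bad_card {x w y : ℕ} (hx : 120 ≤ x) (hy : 1 ≤ y) (hyx : y ≤ x ^ 3) :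
    ((pw x w).filter (fun l => l ∣ y * (y + 1) * (2 * y + 1))).card ≤ 20 := by
  classical
  set B := (pw x w).filter (fun l => l ∣ y * (y + 1) * (2 * y + 1)) with hB
  have hpr : ∀ l ∈ B, l.Prime ∧ x < 2 * l := by
    intro l hl
    have h1 := (mem_filter.1 hl).1
    unfold pw at h1
    exact (mem_filter.1 h1).2
  have hN0 : 0 < y * (y + 1) * (2 * y + 1) := by positivity
  have hdv : ∏ l ∈ B, l ∣ y * (y + 1) * (2 * y + 1) :=
    Finset.prod_primes_dvd _ (fun l hl => (hpr l hl).1.prime) (fun l hl => (mem_filter.1 hl).2)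
  have hle := Nat.le_of_dvd hN0 hdv
  have hN : y * (y + 1) * (2 * y + 1) ≤ x ^ 10 := by
    have hx3 : 1 ≤ x ^ 3 := Nat.one_le_pow _ _ (by omega)
    calc y * (y + 1) * (2 * y + 1) ≤ x ^ 3 * (2 * x ^ 3) * (3 * x ^ 3) := by
          gcongr
          · omega
          · omega
      _ = 6 * x ^ 9 := by ring
      _ ≤ x * x ^ 9 := Nat.mul_le_mul_right _ (by omega)
      _ = x ^ 10 := by ring
  have h1 : x ^ B.card ≤ 2 ^ B.card * x ^ 10 := by
    calc x ^ B.card = ∏ _l ∈ B, x := by rw [prod_const]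
      _ ≤ ∏ l ∈ B, (2 * l) := Finset.prod_le_prod' (fun l hl => (hpr l hl).2.le)
      _ = 2 ^ B.card * ∏ l ∈ B, l := by rw [prod_mul_distrib, prod_const]
      _ ≤ 2 ^ B.card * x ^ 10 := Nat.mul_le_mul_left _ (hle.trans hN)
  by_contra hcon
  have hk : 21 ≤ B.card := by omega
  obtain ⟨k, hk'⟩ : ∃ k, B.card = k + 10 := ⟨B.card - 10, by omega⟩
  rw [hk', pow_add x] at h1
  have hx10 : 0 < x ^ 10 := by positivity
  have h2 : x ^ k ≤ 2 ^ (k + 10) := Nat.le_of_mul_le_mul_right h1 hx10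
  have h3 : 2 ^ (2 * k) ≤ 2 ^ (k + 10) := by
    calc 2 ^ (2 * k) = 4 ^ k := by
          rw [pow_mul]
          norm_num
      _ ≤ x ^ k := Nat.pow_le_pow_left (by omega) _
      _ ≤ _ := h2
  have h4 := (Nat.pow_le_pow_iff_right (by norm_num : 1 < 2)).1 h3
  omega

/-- the numbers `m` in `am` avoid the classes -/
private theorem not_mem_SS {P x w y m l : ℕ} {δ : ℝ} (hδ : δ ≤ 1) (hP4 : 4 ≤ P) (hy : 5 ≤ y) (hyP : y ≤ P)
    (hm : m ∈ am P y) (hl : l.Prime) (hlP : (l : ℝ) ≤ (P : ℝ) ^ δ) : m % l ∉ SS P x w y l := by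
  classical
  intro hmem
  unfold SS at hmem
  split_ifs at hmem with h
  swap
  · simp at hmem
  have hdvd := (mem_filter.1 hmem).2
  unfold am at hm
  obtain ⟨hm1, hp1, hp2⟩ := mem_filter.1 hm
  rw [mem_Icc] at hm1
  have hPm : P ≤ P * m := Nat.le_mul_of_pos_right _ (by omega)
  obtain ⟨n, hn⟩ : ∃ n, n = P - 4 + P * m := ⟨_, rfl⟩
  rw [← hn] at hp1 hp2
  have hnP : P ≤ n := by omega
  have hyn : y ≤ n := by omega
  have hlP' : l ≤ P := by
    have h1 : (1 : ℝ) ≤ P := by exact_mod_cast (by omega : 1 ≤ P)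
    have h2 : (P : ℝ) ^ δ ≤ (P : ℝ) ^ (1 : ℝ) := Real.rpow_le_rpow_of_exponent_le h1 hδ
    rw [Real.rpow_one] at h2
    exact_mod_cast hlP.trans h2
  have hny : P < n * y := by nlinarith
  have hny2 : P < n * y ^ 2 := by nlinarith
  -- the congruence
  have hmod : (l : ℤ) ∣ ((m % l : ℕ) : ℤ) - (m : ℤ) := by
    have h1 : (m : ℤ) ≡ ((m % l : ℕ) : ℤ) [ZMOD l] := by
      push_cast
      exact (Int.mod_modEq _ _).symm
    exact h1.dvd
  have hG : (l : ℤ) ∣ G P y m := by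
    have : Fact l.Prime := ⟨hl⟩
    rw [← ZMod.intCast_zmod_eq_zero_iff_dvd] at hdvd hmod ⊢
    have e : (((m % l : ℕ) : ℤ) : ZMod l) = ((m : ℤ) : ZMod l) := by
      push_cast at hmod ⊢
      exact sub_eq_zero.1 hmod
    unfold G at hdvd ⊢
    push_cast at hdvd e ⊢
    rw [e] at hdvd
    exact hdvd
  have hGe : G P y m = (((n - y) + n * y : ℕ) : ℤ) * (((n - y) ^ 2 + n * y ^ 2 : ℕ) : ℤ) := by
    have hnz : (n : ℤ) = (P : ℤ) - 4 + P * m := by
      rw [hn]
      push_cast [Nat.cast_sub hP4]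
      ring
    unfold G
    rw [← hnz]
    push_cast [Nat.cast_sub hyn]
    ring
  rw [hGe] at hG
  have hG' : l ∣ ((n - y) + n * y) * ((n - y) ^ 2 + n * y ^ 2) := by exact_mod_cast hG
  rcases (Nat.Prime.dvd_mul hl).1 hG' with h5 | h5
  · have h6 := (Nat.prime_dvd_prime_iff_eq hl hp1).1 h5
    omega
  · have h6 := (Nat.prime_dvd_prime_iff_eq hl hp2).1 h5
    have h7 : n * y ^ 2 ≤ (n - y) ^ 2 + n * y ^ 2 := Nat.le_add_left _ _
    omega

/-- Module FYB. -/
theorem hFYB (hS : StSVU) : StFYB := by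
  classical
  obtain ⟨C₀, δ, hC₀, hδ, hδ4, hsieve⟩ := hS
  refine ⟨C₀ * Real.exp 1, δ, by positivity, hδ, hδ4, 120, ?_⟩
  intro x P y w hx hPl hy hyx hxP hw
  have hx3 : 4 ≤ x ^ 3 := by
    calc 4 ≤ 120 ^ 3 := by norm_num
      _ ≤ x ^ 3 := Nat.pow_le_pow_left hx _
  have hP4 : 4 ≤ P := hx3.trans hxP
  have hyP : y ≤ P := hyx.trans hxP
  have hmain := hsieve P (by omega) (SS P x w y) (fun l _ _ => SS_ok hPl hy l)
  have hsub : am P y ⊆ (Icc 1 P).filter
      (fun m : ℕ => ∀ l : ℕ, l.Prime → 7 ≤ l → (l : ℝ) ≤ (P : ℝ) ^ δ → m % l ∉ SS P x w y l) := by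
    intro m hm
    rw [mem_filter]
    refine ⟨?_, fun l hl _ hlP => not_mem_SS (by linarith) hP4 hy hyP hm hl hlP⟩
    unfold am at hm
    exact (mem_filter.1 hm).1
  have hcard : ((am P y).card : ℝ) ≤ C₀ * P *
      Real.exp (-∑ l ∈ (Icc 7 ⌊(P : ℝ) ^ δ⌋₊).filter Nat.Prime, ((SS P x w y l).card : ℝ) / l) := by
    refine le_trans ?_ hmain
    exact_mod_cast Finset.card_le_card hsub
  have hsum1 : ∑ l ∈ pw x w, ((SS P x w y l).card : ℝ) / l ≤
      ∑ l ∈ (Icc 7 ⌊(P : ℝ) ^ δ⌋₊).filter Nat.Prime, ((SS P x w y l).card : ℝ) / l := by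
    apply Finset.sum_le_sum_of_subset_of_nonneg
    · intro l hl
      unfold pw at hl
      obtain ⟨h1, h2, h3⟩ := mem_filter.1 hl
      rw [mem_Icc] at h1
      rw [mem_filter, mem_Icc]
      exact ⟨⟨h1.1, Nat.le_floor ((by exact_mod_cast h1.2 : (l : ℝ) ≤ w).trans hw)⟩, h2⟩
    · intro l _ _
      positivity
  have hterm : ∀ l ∈ pw x w, (2 + js (y - 2) l) / l -
      (if l ∣ y * (y + 1) * (2 * y + 1) then (3 : ℝ) / l else 0) ≤ ((SS P x w y l).card : ℝ) / l := by
    intro l hl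
    by_cases hg : l ∣ y * (y + 1) * (2 * y + 1)
    · rw [if_pos hg]
      have h1 : (2 + js (y - 2) l) / (l : ℝ) ≤ 3 / l := by
        have := js_bd (y - 2) l
        gcongr
        linarith
      have h2 : 0 ≤ ((SS P x w y l).card : ℝ) / l := by positivity
      linarith
    · rw [if_neg hg, SS_card (P := P) hPl hy hl hg, sub_zero]
  have hsum2 := Finset.sum_le_sum hterm
  rw [Finset.sum_sub_distrib] at hsum2
  have hbad : ∑ l ∈ pw x w, (if l ∣ y * (y + 1) * (2 * y + 1) then (3 : ℝ) / l else 0) ≤ 1 := by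
    rw [← Finset.sum_filter]
    have hx0 : (0 : ℝ) < x := by exact_mod_cast (by omega : 0 < x)
    calc ∑ l ∈ (pw x w).filter (fun l => l ∣ y * (y + 1) * (2 * y + 1)), (3 : ℝ) / l
        ≤ ∑ _l ∈ (pw x w).filter (fun l => l ∣ y * (y + 1) * (2 * y + 1)), (6 : ℝ) / x := by
          apply Finset.sum_le_sum
          intro l hl
          have h1 := (mem_filter.1 hl).1
          unfold pw at h1
          obtain ⟨h2, h3, h4⟩ := mem_filter.1 h1
          have h5 : (x : ℝ) < 2 * l := by exact_mod_cast h4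
          rw [div_le_div_iff₀ (by linarith) hx0]
          linarith
      _ = (((pw x w).filter (fun l => l ∣ y * (y + 1) * (2 * y + 1))).card : ℝ) * (6 / x) := by
          rw [sum_const, nsmul_eq_mul]
      _ ≤ 20 * (6 / x) := by
          have h1 := bad_card (w := w) hx (by omega : 1 ≤ y) hyx
          have h2 : (((pw x w).filter (fun l => l ∣ y * (y + 1) * (2 * y + 1))).card : ℝ) ≤ 20 := by
            exact_mod_cast h1
          gcongr
      _ ≤ 1 := by
          have h1 : (120 : ℝ) ≤ x := by exact_mod_cast hx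
          rw [mul_div_assoc', div_le_one hx0]
          linarith
  refine hcard.trans ?_
  have hexp : Real.exp (-∑ l ∈ (Icc 7 ⌊(P : ℝ) ^ δ⌋₊).filter Nat.Prime, ((SS P x w y l).card : ℝ) / l) ≤
      Real.exp (1 + -∑ l ∈ pw x w, (2 + js (y - 2) l) / l) := by
    apply Real.exp_le_exp.2
    linarith
  rw [Real.exp_add] at hexp
  have hP0 : (0 : ℝ) ≤ P := by positivity
  calc C₀ * P * Real.exp (-∑ l ∈ (Icc 7 ⌊(P : ℝ) ^ δ⌋₊).filter Nat.Prime, ((SS P x w y l).card : ℝ) / l)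
      ≤ C₀ * P * (Real.exp 1 * Real.exp (-∑ l ∈ pw x w, (2 + js (y - 2) l) / l)) :=
        mul_le_mul_of_nonneg_left hexp (by positivity)
    _ = _ := by ring

end Pool.Agent.Helper22.LZ
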